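import Mathlib

/-! Counting enumerations of a finite type all of whose initial segments are allowed. -/

open Finset

namespace Pool.Agent.H13R3.WB

section General

variable {P : Type} [Fintype P] [DecidableEq P]

/-- the set of the elements at the positions `< k` -/
def Hs {n : ℕ} (f : P ≃ Fin n) (k : ℕ) : Finset P := univ.filter (fun p => (f p : ℕ) < k)

/-- number of ways to complete the initial segment `J` by `m` further elements -/
def D (A : Finset P → Prop) [DecidablePred A] : ℕ → Finset P → ℕ
  | 0, _ => 1
  | m + 1, J => ∑ p ∈ univ.filter (fun p => p ∉ J ∧ A (insert p J)), D A m (insert p J)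

/-- the completions as lists -/
def L (A : Finset P → Prop) [DecidablePred A] : ℕ → Finset P → Finset (List P)
  | 0, _ => {[]}
  | m + 1, J => (univ.filter (fun p => p ∉ J ∧ A (insert p J))).biUnion
      (fun p => (L A m (insert p J)).image (List.cons p))

variable (A : Finset P → Prop) [DecidablePred A]

lemma card_L (m : ℕ) : ∀ J : Finset P, (L A m J).card = D A m J := by
  induction m with
  | zero => intro J; simp [L, D]
  | succ m ih =>
    intro J
    rw [L, D, card_biUnion]
    · apply sum_congr rfl
      intro p _
      rw [card_image_of_injective _ (List.cons_injective), ih]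
    · intro p _ q _ hpq
      rw [Function.onFun, disjoint_left]
      intro l hl hl'
      rw [mem_image] at hl hl'
      obtain ⟨t, _, rfl⟩ := hl
      obtain ⟨t', _, h⟩ := hl'
      exact hpq (List.cons.inj h).1.symm

lemma mem_L (m : ℕ) : ∀ (J : Finset P) (l : List P), l ∈ L A m J ↔
    l.length = m ∧ l.Nodup ∧ (∀ p ∈ l, p ∉ J) ∧
      ∀ k, 0 < k → k ≤ m → A (J ∪ (l.take k).toFinset) := by
  induction m with
  | zero =>
    intro J l
    rw [L, mem_singleton]
    constructor
    · rintro rfl
      refine ⟨rfl, List.nodup_nil, by simp, ?_⟩
      intro k h1 h2; omega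
    · rintro ⟨h, -⟩
      exact List.length_eq_zero_iff.mp h
  | succ m ih =>
    intro J l
    rw [L, mem_biUnion]
    constructor
    · rintro ⟨p, hp, hl⟩
      rw [mem_filter] at hp
      rw [mem_image] at hl
      obtain ⟨t, ht, rfl⟩ := hl
      obtain ⟨h1, h2, h3, h4⟩ := (ih _ _).mp ht
      refine ⟨by simp [h1], ?_, ?_, ?_⟩
      · rw [List.nodup_cons]
        exact ⟨fun h => h3 p h (mem_insert_self _ _), h2⟩
      · intro q hq
        rcases List.mem_cons.mp hq with rfl | hq
        · exact hp.2.1
        · exact fun h => h3 q hq (mem_insert_of_mem h)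
      · intro k hk1 hk2
        obtain ⟨k, rfl⟩ : ∃ k', k = k' + 1 := ⟨k - 1, by omega⟩
        rcases Nat.eq_zero_or_pos k with rfl | hk
        · have : J ∪ (List.take (0 + 1) (p :: t)).toFinset = insert p J := by
            ext q; simp
          rw [this]; exact hp.2.2
        · have h5 := h4 k hk (by omega)
          have : J ∪ (List.take (k + 1) (p :: t)).toFinset =
              insert p J ∪ (List.take k t).toFinset := by
            ext q; simp
          rw [this]; exact h5
    · rintro ⟨h1, h2, h3, h4⟩
      obtain ⟨p, t, rfl⟩ := List.exists_cons_of_length_eq_add_one h1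
      rw [List.nodup_cons] at h2
      have hp : p ∉ J := h3 p (by simp)
      have hA : A (insert p J) := by
        have h5 := h4 1 one_pos (by omega)
        have : J ∪ (List.take 1 (p :: t)).toFinset = insert p J := by
          ext q; simp
        rwa [this] at h5
      refine ⟨p, by rw [mem_filter]; exact ⟨mem_univ _, hp, hA⟩, ?_⟩
      rw [mem_image]
      refine ⟨t, ?_, rfl⟩
      rw [ih]
      refine ⟨by simpa using h1, h2.2, ?_, ?_⟩
      · intro q hq h
        rcases mem_insert.mp h with rfl | h
        · exact h2.1 hq
        · exact h3 q (List.mem_cons_of_mem _ hq) h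
      · intro k hk1 hk2
        have h5 := h4 (k + 1) (by omega) (by omega)
        have : J ∪ (List.take (k + 1) (p :: t)).toFinset =
            insert p J ∪ (List.take k t).toFinset := by
          ext q; simp
        rwa [this] at h5

lemma toFinset_take_ofFn {n : ℕ} (f : P ≃ Fin n) (k : ℕ) :
    ((List.ofFn f.symm).take k).toFinset = Hs f k := by
  ext p
  rw [List.mem_toFinset, Hs, mem_filter, List.mem_take_iff_getElem]
  constructor
  · rintro ⟨i, hi, h⟩
    refine ⟨mem_univ _, ?_⟩
    rw [List.getElem_ofFn] at h
    rw [← h]
    simp only [Equiv.apply_symm_apply]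
    simp only [List.length_ofFn] at hi
    omega
  · rintro ⟨_, h⟩
    refine ⟨(f p : ℕ), ?_, ?_⟩
    · rw [List.length_ofFn]
      have := (f p).2
      omega
    · rw [List.getElem_ofFn]
      simp

/-- the number of enumerations with allowed initial segments -/
theorem card_count {n : ℕ} (hn : Fintype.card P = n) (h0 : A ∅) :
    (univ.filter (fun f : P ≃ Fin n => ∀ k ≤ n, A (Hs f k))).card = D A n ∅ := by
  rw [← card_L]
  apply card_bij (fun f _ => List.ofFn f.symm)
  · intro f hf
    rw [mem_filter] at hf
    rw [mem_L]
    refine ⟨List.length_ofFn, ?_, by simp, ?_⟩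
    · rw [List.nodup_ofFn]; exact f.symm.injective
    · intro k _ hk
      rw [toFinset_take_ofFn, empty_union]
      exact hf.2 k hk
  · intro f _ g _ h
    have h1 := List.ofFn_injective h
    have h2 : f.symm = g.symm := DFunLike.coe_injective h1
    exact Equiv.symm_bijective.injective h2
  · intro l hl
    rw [mem_L] at hl
    obtain ⟨h1, h2, -, h4⟩ := hl
    let g : Fin n → P := fun i => l.get (i.cast h1.symm)
    have hg : Function.Injective g := by
      intro i j hij
      have := (List.nodup_iff_injective_get.mp h2) hij
      exact Fin.cast_injective _ this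
    have hb : Function.Bijective g := by
      rw [Fintype.bijective_iff_injective_and_card]
      exact ⟨hg, by simp [hn]⟩
    let f : P ≃ Fin n := (Equiv.ofBijective g hb).symm
    have hf : List.ofFn f.symm = l := by
      apply List.ext_getElem
      · simp [h1]
      · intro i hi1 hi2
        rw [List.getElem_ofFn]
        simp [f, g]
    refine ⟨f, ?_, hf⟩
    rw [mem_filter]
    refine ⟨mem_univ _, ?_⟩
    intro k hk
    rcases Nat.eq_zero_or_pos k with rfl | hk0
    · have : Hs f 0 = ∅ := by
        ext p; simp [Hs]
      rw [this]; exact h0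
    · have := h4 k hk0 hk
      rw [empty_union, ← hf, toFinset_take_ofFn] at this
      exact this

end General

end Pool.Agent.H13R3.WB
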