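import Mathlib
import Pool.Agent.H13R3.WB.Count

/-! Two chains: initial segments are indexed by pairs. -/

open Finset

namespace Pool.Agent.H13R3.WB

variable {a b : ℕ}

/-- the initial segment with `i` elements of the first and `j` elements of the second chain -/
def Jn (a b i j : ℕ) : Finset (Fin a ⊕ Fin b) :=
  univ.filter (fun p => Sum.elim (fun u : Fin a => decide ((u : ℕ) < i))
    (fun v : Fin b => decide ((v : ℕ) < j)) p = true)

lemma mem_Jn_inl {i j : ℕ} {u : Fin a} : Sum.inl u ∈ Jn a b i j ↔ (u : ℕ) < i := by
  simp [Jn]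

lemma mem_Jn_inr {i j : ℕ} {v : Fin b} : Sum.inr v ∈ Jn a b i j ↔ (v : ℕ) < j := by
  simp [Jn]

/-- lattice path counts -/
def cnt (R : ℕ → ℕ → Bool) : ℕ → ℕ → ℕ → ℕ
  | 0, _, _ => 1
  | m + 1, i, j => (bif R (i + 1) j then cnt R m (i + 1) j else 0) +
      (bif R i (j + 1) then cnt R m i (j + 1) else 0)

lemma insert_inl {i j : ℕ} (hi : i < a) :
    insert (Sum.inl ⟨i, hi⟩) (Jn a b i j) = Jn a b (i + 1) j := by
  ext p
  rcases p with u | v
  · rw [mem_insert, mem_Jn_inl, mem_Jn_inl, Sum.inl.injEq, Fin.ext_iff]
    simp only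
    omega
  · rw [mem_insert, mem_Jn_inr, mem_Jn_inr]
    simp

lemma insert_inr {i j : ℕ} (hj : j < b) :
    insert (Sum.inr ⟨j, hj⟩) (Jn a b i j) = Jn a b i (j + 1) := by
  ext p
  rcases p with u | v
  · rw [mem_insert, mem_Jn_inl, mem_Jn_inl]
    simp
  · rw [mem_insert, mem_Jn_inr, mem_Jn_inr, Sum.inr.injEq, Fin.ext_iff]
    simp only
    omega

/-- if the allowed sets are closed downwards in both chains, the number of completions is a number
of lattice paths -/
theorem D_eq_cnt (A : Finset (Fin a ⊕ Fin b) → Prop) [DecidablePred A] (R : ℕ → ℕ → Bool)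
    (hx : ∀ J, A J → ∀ u u' : Fin a, u' < u → Sum.inl u ∈ J → Sum.inl u' ∈ J)
    (hy : ∀ J, A J → ∀ v v' : Fin b, v' < v → Sum.inr v ∈ J → Sum.inr v' ∈ J)
    (hR : ∀ i j, i ≤ a → j ≤ b → (A (Jn a b i j) ↔ R i j = true))
    (hRa : ∀ i j, R i j = true → i ≤ a ∧ j ≤ b) (m : ℕ) :
    ∀ i j, i ≤ a → j ≤ b → D A m (Jn a b i j) = cnt R m i j := by
  induction m with
  | zero => intro i j _ _; rfl
  | succ m ih =>
    intro i j hi hj
    rw [D, cnt, sum_filter, Fintype.sum_sum_type]
    congr 1
    · by_cases hia : i < a
      · rw [Fintype.sum_eq_single ⟨i, hia⟩]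
        · have hn : (Sum.inl ⟨i, hia⟩ : Fin a ⊕ Fin b) ∉ Jn a b i j := by
            rw [mem_Jn_inl]; exact lt_irrefl _
          rw [insert_inl hia]
          by_cases h : R (i + 1) j = true
          · rw [if_pos ⟨hn, (hR _ _ hia hj).mpr h⟩, h, cond_true, ih _ _ hia hj]
          · rw [if_neg (fun h' => h ((hR _ _ hia hj).mp h'.2))]
            rw [Bool.not_eq_true] at h
            rw [h, cond_false]
        · intro u hu
          rw [if_neg]
          rintro ⟨h1, h2⟩
          rw [mem_Jn_inl, not_lt] at h1
          have hlt : (⟨i, hia⟩ : Fin a) < u := by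
            rw [Fin.lt_def]
            have : (u : ℕ) ≠ i := fun h => hu (Fin.ext h)
            simp only
            omega
          have h3 := hx _ h2 u ⟨i, hia⟩ hlt (mem_insert_self _ _)
          rw [mem_insert, mem_Jn_inl] at h3
          rcases h3 with h3 | h3
          · rw [Sum.inl.injEq] at h3
            exact hu h3.symm
          · simp at h3
      · have hRf : R (i + 1) j = false := by
          rw [← Bool.not_eq_true]
          intro h
          have := (hRa _ _ h).1
          omega
        rw [hRf, cond_false]
        apply sum_eq_zero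
        intro u _
        rw [if_neg]
        rintro ⟨h1, _⟩
        rw [mem_Jn_inl, not_lt] at h1
        have := u.2
        omega
    · by_cases hjb : j < b
      · rw [Fintype.sum_eq_single ⟨j, hjb⟩]
        · have hn : (Sum.inr ⟨j, hjb⟩ : Fin a ⊕ Fin b) ∉ Jn a b i j := by
            rw [mem_Jn_inr]; exact lt_irrefl _
          rw [insert_inr hjb]
          by_cases h : R i (j + 1) = true
          · rw [if_pos ⟨hn, (hR _ _ hi hjb).mpr h⟩, h, cond_true, ih _ _ hi hjb]
          · rw [if_neg (fun h' => h ((hR _ _ hi hjb).mp h'.2))]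
            rw [Bool.not_eq_true] at h
            rw [h, cond_false]
        · intro v hv
          rw [if_neg]
          rintro ⟨h1, h2⟩
          rw [mem_Jn_inr, not_lt] at h1
          have hlt : (⟨j, hjb⟩ : Fin b) < v := by
            rw [Fin.lt_def]
            have : (v : ℕ) ≠ j := fun h => hv (Fin.ext h)
            simp only
            omega
          have h3 := hy _ h2 v ⟨j, hjb⟩ hlt (mem_insert_self _ _)
          rw [mem_insert, mem_Jn_inr] at h3
          rcases h3 with h3 | h3
          · rw [Sum.inr.injEq] at h3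
            exact hv h3.symm
          · simp at h3
      · have hRf : R i (j + 1) = false := by
          rw [← Bool.not_eq_true]
          intro h
          have := (hRa _ _ h).2
          omega
        rw [hRf, cond_false]
        apply sum_eq_zero
        intro v _
        rw [if_neg]
        rintro ⟨h1, _⟩
        rw [mem_Jn_inr, not_lt] at h1
        have := v.2
        omega

/-! ### computing path counts by rows -/

/-- one step -/
def stp (R : ℕ → Bool) : ℕ → ℕ → List ℕ → List ℕ
  | i, x, [] => [bif R i then x else 0]
  | i, x, y :: t => (bif R i then x + y else 0) :: stp R (i + 1) y t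

lemma stp_eq (R : ℕ → Bool) (g : ℕ → ℕ) (t : List ℕ) : ∀ (i x : ℕ),
    x :: t = (List.range' i (t.length + 1)).map g → g (i + t.length + 1) = 0 →
    stp R i x t = (List.range' i (t.length + 1)).map (fun s => bif R s then g s + g (s + 1) else 0) := by
  induction t with
  | nil =>
    intro i x h h0
    simp only [List.length_nil, List.range'_succ, List.range'_zero, List.map_cons, List.map_nil,
      Nat.zero_add, Nat.add_zero, List.cons.injEq, and_true] at h h0 ⊢
    rw [stp, h, h0]
    simp
  | cons y t ih =>
    intro i x h h0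
    rw [stp, List.length_cons, List.range'_succ, List.map_cons]
    rw [List.length_cons, List.range'_succ, List.map_cons, List.cons.injEq] at h
    obtain ⟨hx, hy⟩ := h
    have hy' := hy
    rw [List.range'_succ, List.map_cons, List.cons.injEq] at hy'
    rw [ih (i + 1) y hy (by rw [← h0]; congr 1; simp; ring), hx, hy'.1]

/-- the row of path counts with `m` steps left -/
def row (R : ℕ → ℕ → Bool) (a n : ℕ) : ℕ → List ℕ
  | 0 => (List.range' 0 (a + 1)).map (fun s => bif (Nat.ble s n && R s (n - s)) then 1 else 0)
  | m + 1 => match row R a n m with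
    | [] => []
    | x :: t => stp (fun s => Nat.ble s (n - (m + 1)) && R s (n - (m + 1) - s)) 0 x t

theorem row_eq (R : ℕ → ℕ → Bool) (a n : ℕ) (hRa : ∀ i j, R i j = true → i ≤ a) (m : ℕ)
    (hm : m ≤ n) : row R a n m = (List.range' 0 (a + 1)).map
      (fun s => bif (Nat.ble s (n - m) && R s (n - m - s)) then cnt R m s (n - m - s) else 0) := by
  induction m with
  | zero => rfl
  | succ m ih =>
    have ih := ih (by omega)
    rw [row]
    set g : ℕ → ℕ := fun s => bif (Nat.ble s (n - m) && R s (n - m - s)) then
      cnt R m s (n - m - s) else 0 with hg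
    have hlen : (row R a n m).length = a + 1 := by rw [ih]; simp
    rcases hrow : row R a n m with _ | ⟨x, t⟩
    · rw [hrow] at hlen; simp at hlen
    · simp only
      rw [hrow] at hlen ih
      have ht : t.length = a := by simpa using hlen
      have ha1 : ∀ j, R (a + 1) j = false := by
        intro j
        rw [← Bool.not_eq_true]
        intro h
        have := hRa _ _ h
        omega
      rw [stp_eq _ g t 0 x (by rw [ht]; exact ih) (by
        rw [ht, Nat.zero_add, hg]
        simp only [ha1, Bool.and_false, cond_false]), ht]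
      apply List.map_congr_left
      intro s _
      by_cases hs : (Nat.ble s (n - (m + 1)) && R s (n - (m + 1) - s)) = true
      · rw [hs, cond_true, cond_true]
        rw [Bool.and_eq_true] at hs
        have hs1 : s ≤ n - (m + 1) := Nat.le_of_ble_eq_true hs.1
        have e1 : n - m - s = n - (m + 1) - s + 1 := by omega
        have e2 : n - m - (s + 1) = n - (m + 1) - s := by omega
        have b1 : Nat.ble s (n - m) = true := Nat.ble_eq_true_of_le (by omega)
        have b2 : Nat.ble (s + 1) (n - m) = true := Nat.ble_eq_true_of_le (by omega)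
        rw [cnt, hg]
        simp only [b1, b2, Bool.true_and]
        rw [e1, e2, Nat.add_comm]
      · rw [Bool.not_eq_true] at hs
        rw [hs, cond_false, cond_false]

theorem cnt_eq_head (R : ℕ → ℕ → Bool) (a n : ℕ) (hRa : ∀ i j, R i j = true → i ≤ a)
    (h0 : R 0 0 = true) : cnt R n 0 0 = (row R a n n).headD 0 := by
  rw [row_eq R a n hRa n le_rfl, List.range'_succ, List.map_cons, List.headD_cons, Nat.sub_self,
    Nat.sub_self, h0, Nat.ble_eq_true_of_le (Nat.zero_le 0)]
  rfl

end Pool.Agent.H13R3.WB
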